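import Pool.Agent.helper51.NP.Spec

set_option autoImplicit false

namespace NPC

open Finset Real ArithmeticFunction Pool.Agent.helper39.MT Pool.Agent.helper85.FC

theorem FRM (hFQ : FQ_stmt) (hFX : FX_stmt) : FRM_stmt := by
  intro h k D₀ hh
  obtain ⟨g, hmono, hg0, hdvd⟩ := Pool.Agent.helper39.MT.heath_brown_set k
  obtain ⟨x₁, M, hM0, hx₁⟩ := hFQ k h g hmono hg0 (fun i j hij => (hdvd i j hij).1)
  obtain ⟨x₂, W, S, c, hx₂, hMW, hW0, hsm, hph, hpg, hpd, hc⟩ :=
    hFX k h g hmono hg0 hh x₁ M (max D₀ 2) hM0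
  have h2W : 2 ∣ W := hsm 2 Nat.prime_two (le_max_right _ _)
  have hcW : ∀ i, c i ∣ W := fun i =>
    (Dvd.intro _ rfl).trans ((hc i).2.2.1 2 Nat.prime_two h2W)
  have hA : ∀ i, c i * (g i * (W / c i)) = g i * W := by
    intro i
    obtain ⟨m, hm⟩ := hcW i
    rw [hm, Nat.mul_div_cancel_left _ (hc i).1]
    ring
  have hB : ∀ i, c i * ((g i * x₂ + h) / c i) = g i * x₂ + h := fun i =>
    Nat.mul_div_cancel' (hc i).2.1
  have hWM : M ≤ W := Nat.le_of_dvd hW0 hMW
  refine ⟨fun i => g i * (W / c i), fun i => (g i * x₂ + h) / c i, W,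
    ∑ i, ∑ j, (g i / (g j - g i) * c j + (g i / (g j - g i) + 1) * c i), ?_, ?_⟩
  · refine ⟨?_, ?_, hW0, ?_, ?_, ?_, ?_⟩
    · intro i
      have h1 := hA i
      have h2 : 0 < g i * W := Nat.mul_pos (hg0 i) hW0
      rw [← h1] at h2
      exact Nat.pos_of_mul_pos_left h2
    · intro i
      have h2 : 0 < g i * x₂ + h := by omega
      rw [← hB i] at h2
      exact Nat.pos_of_mul_pos_left h2
    · intro p hp hpD
      exact hsm p hp (hpD.trans (le_max_left _ _))
    · intro i p hp
      constructor
      · intro hpA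
        have h1 : p ∣ g i * W := by
          rw [← hA i]
          exact hpA.mul_left _
        rcases (Nat.Prime.dvd_mul hp).1 h1 with h2 | h2
        · exact hpg p hp i h2
        · exact h2
      · intro hpW
        obtain ⟨m, hm⟩ := (hc i).2.2.1 p hp hpW
        have h1 : W / c i = p * m := by
          rw [hm, mul_assoc, Nat.mul_div_cancel_left _ (hc i).1]
        show p ∣ g i * (W / c i)
        rw [h1]
        exact (Dvd.intro _ rfl).mul_left _
    · intro i
      exact (hc i).2.2.2.1
    · intro i j hij p hp hpd'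
      have hpZ : Prime (p : ℤ) := Nat.prime_iff_prime_int.1 hp
      have hAi : (c i : ℤ) * ((g i * (W / c i) : ℕ) : ℤ) = g i * W := by exact_mod_cast hA i
      have hAj : (c j : ℤ) * ((g j * (W / c j) : ℕ) : ℤ) = g j * W := by exact_mod_cast hA j
      have hBi : (c i : ℤ) * (((g i * x₂ + h) / c i : ℕ) : ℤ) = g i * x₂ + h := by
        exact_mod_cast hB i
      have hBj : (c j : ℤ) * (((g j * x₂ + h) / c j : ℕ) : ℤ) = g j * x₂ + h := by
        exact_mod_cast hB j
      have h1 : (p : ℤ) ∣ (W : ℤ) * (h * ((g i : ℤ) - g j)) := by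
        have h2 : (W : ℤ) * (h * ((g i : ℤ) - g j)) = (c i * c j : ℤ) *
            (((g i * (W / c i) : ℕ) : ℤ) * (((g j * x₂ + h) / c j : ℕ) : ℤ) -
              ((g j * (W / c j) : ℕ) : ℤ) * (((g i * x₂ + h) / c i : ℕ) : ℤ)) := by
          linear_combination (-((c j : ℤ) * (((g j * x₂ + h) / c j : ℕ) : ℤ))) * hAi
            - (g i * W : ℤ) * hBj + ((c i : ℤ) * (((g i * x₂ + h) / c i : ℕ) : ℤ)) * hAj
            + (g j * W : ℤ) * hBi
        rw [h2]
        exact Dvd.dvd.mul_left hpd' _
      rcases hpZ.dvd_or_dvd h1 with h3 | h3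
      · exact Int.natCast_dvd_natCast.1 h3
      rcases hpZ.dvd_or_dvd h3 with h4 | h4
      · exact hph p hp (Int.natCast_dvd_natCast.1 h4)
      · rcases lt_or_gt_of_ne hij with h5 | h5
        · refine hpd p hp i j h5 ?_
          have h6 := (hmono h5).le
          have h7 : ((g j - g i : ℕ) : ℤ) = -((g i : ℤ) - g j) := by
            push_cast [Nat.cast_sub h6]; ring
          rw [← Int.natCast_dvd_natCast, h7]
          exact (dvd_neg).2 h4
        · refine hpd p hp j i h5 ?_
          have h6 := (hmono h5).le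
          have h7 : ((g i - g j : ℕ) : ℤ) = ((g i : ℤ) - g j) := by
            push_cast [Nat.cast_sub h6]; ring
          rw [← Int.natCast_dvd_natCast, h7]
          exact h4
  · intro i j hij
    obtain ⟨α, hα⟩ : ∃ α, α = g i / (g j - g i) := ⟨_, rfl⟩
    obtain ⟨d, hd⟩ : ∃ d, d = g j - g i := ⟨_, rfl⟩
    have hlt := hmono hij
    have hd0 : 0 < d := by omega
    have hgi : g i = d * α := by
      rw [hα, hd]
      exact (Nat.mul_div_cancel' (hdvd i j hij).1).symm
    have hgj : g j = d * (α + 1) := by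
      rw [mul_add, ← hgi]; omega
    have hα0 : 0 < α := by
      have := hg0 i
      rw [hgi] at this
      exact Nat.pos_of_mul_pos_left this
    have hKs : α * c j + (α + 1) * c i ≤
        ∑ i, ∑ j, (g i / (g j - g i) * c j + (g i / (g j - g i) + 1) * c i) := by
      refine le_trans ?_ (single_le_sum (fun _ _ => Nat.zero_le _) (mem_univ i))
      refine le_trans ?_ (single_le_sum (fun _ _ => Nat.zero_le _) (mem_univ j))
      rw [← hα]
    have hid : ∀ n : ℕ, α * (g j * (x₂ + W * n) + h) =
        α * (α + 1) * d * W * n + α * (g j * x₂ + h) := by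
      intro n; rw [hgj]; ring
    refine ⟨α * (α + 1) * d * W, α * (g j * x₂ + h), α * c j, (α + 1) * c i, by positivity,
      Nat.mul_pos hα0 (hc j).1, by omega, Nat.mul_pos (by omega) (hc i).1, by omega, ?_, ?_⟩
    · rw [cardFactors_mul hα0.ne' (hc j).1.ne', cardFactors_mul (by omega) (hc i).1.ne',
        (hc j).2.2.2.2, (hc i).2.2.2.2]
      rw [hgj, hgi, cardFactors_mul hd0.ne' (by omega), cardFactors_mul hd0.ne' hα0.ne']
      ring
    · intro n hn
      refine ⟨?_, ?_, ?_⟩
      · have h1 : α * c j * (g j * (W / c j) * n + (g j * x₂ + h) / c j) =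
            α * (c j * (g j * (W / c j)) * n + c j * ((g j * x₂ + h) / c j)) := by ring
        rw [h1, hA, hB, ← hid]
        ring
      · have h1 : (α + 1) * c i * (g i * (W / c i) * n + (g i * x₂ + h) / c i) =
            (α + 1) * (c i * (g i * (W / c i)) * n + c i * ((g i * x₂ + h) / c i)) := by ring
        rw [h1, hA, hB, ← hid, hgi, hgj]
        ring
      · intro l hl1 hl2
        have hcong : x₂ + W * n ≡ x₁ [MOD M] := by
          have h1 : W * n ≡ 0 [MOD M] := (Nat.modEq_zero_iff_dvd).2 (hMW.mul_right n)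
          have h2 := Nat.ModEq.add hx₂ h1
          simpa using h2
        have hle : M ≤ x₂ + W * n := by
          calc M ≤ W := hWM
            _ = W * 1 := (mul_one W).symm
            _ ≤ W * n := Nat.mul_le_mul_left W hn
            _ ≤ x₂ + W * n := Nat.le_add_left _ _
        have h3 := hx₁ (x₂ + W * n) hcong hle i j hij
          (l - (α * (α + 1) * d * W * n + α * (g j * x₂ + h))) (by omega) (by omega)
        rw [← hα, hid] at h3
        have h4 : α * (α + 1) * d * W * n + α * (g j * x₂ + h) +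
            (l - (α * (α + 1) * d * W * n + α * (g j * x₂ + h))) = l := by omega
        rw [h4] at h3
        exact h3

end NPC
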